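import Pool.Agent.Lib.MP_361a6f_ag.FL.E5.Defs

/-!
# Theorem EMR: the calculus with the relation between the eigenvalues of Frobenius
-/

set_option autoImplicit false

namespace Pool.Agent.Lib.MP_361a6f_ag.FL.E

/-- the good words for which the product of the eigenvalues is `1` are a calculus -/
theorem calc_rel {I : Type} {τ : I → I} {a l : I → ℂ} {G : ℤˣ → List I → Prop}
    (c : Calc τ a G) (hal : ∀ i j, a i = a j → l i = l j) (hl : ∀ i, l (τ i) * l i = 1) :
    Calc τ a (fun ε v => G ε v ∧ (v.map l).prod = 1) := by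
  have hp : ∀ i, l i * l (τ i) = 1 := fun i => by rw [mul_comm]; exact hl i
  refine ⟨⟨c.nil, by simp⟩, ?_, ?_, ?_, ?_, ?_, ?_, ?_⟩
  · rintro ε v w hvw ⟨h1, h2⟩
    exact ⟨c.perm ε v w hvw h1, by rw [← h2]; exact (hvw.map l).prod_eq.symm⟩
  · rintro ε δ v w ⟨h1, h2⟩ ⟨h3, h4⟩
    exact ⟨c.app ε δ v w h1 h3, by rw [List.map_append, List.prod_append, h2, h4, one_mul]⟩
  · rintro ε v ⟨h1, h2⟩
    refine ⟨c.neg ε v h1, ?_⟩
    have h3 : ∀ w : List I, (w.map l).prod * ((w.map τ).map l).prod = 1 := by
      intro w
      induction w with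
      | nil => simp
      | cons i w ih =>
        simp only [List.map_cons, List.prod_cons]
        calc l i * (w.map l).prod * (l (τ i) * ((w.map τ).map l).prod)
            = (l i * l (τ i)) * ((w.map l).prod * ((w.map τ).map l).prod) := by ring
          _ = 1 := by rw [hp, ih, one_mul]
    have h4 := h3 v
    rwa [h2, one_mul] at h4
  · intro i
    exact ⟨c.pair i, by simp [hp]⟩
  · rintro ε v w hvw ⟨h1, h2⟩
    refine ⟨c.blk ε v w hvw h1, ?_⟩
    have h3 : ∀ v w : List I, v.map a = w.map a → v.map l = w.map l := by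
      intro v
      induction v with
      | nil =>
        intro w hw
        cases w with
        | nil => rfl
        | cons => simp at hw
      | cons i v ih =>
        intro w hw
        cases w with
        | nil => simp at hw
        | cons j w =>
          simp only [List.map_cons, List.cons.injEq] at hw ⊢
          exact ⟨hal _ _ hw.1, ih w hw.2⟩
    rw [← h3 v w hvw, h2]
  · rintro ε i v ⟨h1, h2⟩
    refine ⟨c.can ε i v h1, ?_⟩
    simp only [List.map_cons, List.prod_cons] at h2
    rw [← h2, ← mul_assoc, hp, one_mul]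
  · rintro ε v hv ⟨h1, -⟩
    exact c.four ε v hv h1

end Pool.Agent.Lib.MP_361a6f_ag.FL.E
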