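import Pool.Agent.Lib.MP_361a6f_ag.FL.EMC.DefsW

/-!
# Theorem EMR: the statements of the hook, of the theorem in coordinates and of the assembly

As Theorem EMC, but the condition on the minimal stable subspaces is only asked for families of at
least six subspaces for which there is a multiplicative relation between eigenvalues of Frobenius.
-/

set_option autoImplicit false

open Filter Topology

namespace Pool.Agent.Lib.MP_361a6f_ag.FL.E

/-- for `L ≥ 6`, `L` even, and independent subspaces `U i` with the property `Q`, all but at most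
one of them killed by `N`, such that there are eigenvalues `c i` of `diagonal l` on the `U i` with
the product `1`, no `U i` has dimension at least `32` and at most one has dimension at least `8` -/
def FewR {I : Type} [Fintype I] [DecidableEq I] (l : I → ℂ) (N : Matrix I I ℂ)
    (Q : Submodule ℂ (I → ℂ) → Prop) : Prop :=
  ∀ (L : ℕ) (U : Fin L → Submodule ℂ (I → ℂ)) (c : Fin L → ℂ), 6 ≤ L → Even L →
    (∀ i, Q (U i)) → iSupIndep U → (∃ i, ∀ j, j ≠ i → ∀ v ∈ U j, N.mulVec v = 0) →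
    (∀ i, ∃ v ∈ U i, v ≠ 0 ∧ (Matrix.diagonal l).mulVec v = c i • v) → ∏ i, c i = 1 →
    (∀ i, Module.finrank ℂ (U i) < 32) ∧
      ∀ i j, i ≠ j → 8 ≤ Module.finrank ℂ (U i) → Module.finrank ℂ (U j) < 8

/-- Row R11RC: row R11NC with the condition `FewR`. The numbers `l i` are the eigenvalues of
Frobenius. -/
def R11RCStatement : Prop :=
  ∀ {I : Type} [Fintype I] [DecidableEq I] (S : Submodule ℂ (Matrix I I ℂ))
    (E : Set (Matrix I I ℂ)) (P : Matrix I I ℂ),
    (∀ x ∈ S, ∀ y ∈ S, x * y - y * x ∈ S) → (∀ x ∈ S, x.conjTranspose ∈ S) →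
    (∀ e ∈ E, ∀ A ∈ S, e * A = A * e) → (∀ e ∈ E, ∃ f ∈ E, f.transpose * P = P * e) →
    (∀ A ∈ S, A.transpose * P + P * A = 0) → IsUnit P → P.transpose = -P →
    ∀ a : I → ℂ, (∀ i, (starRingEnd ℂ) (a i) = a i) → Matrix.diagonal a ∈ S →
    ∀ k : I → ℂ, (∀ i j, a i = a j → k i = k j) →
    ∀ l : I → ℂ, (∀ i j, a i = a j → l i = l j) →
    ∀ (τ : I → I) (G : ℤˣ → List I → Prop), (∀ i, τ (τ i) = i) → (∀ i, a (τ i) = -a i) →
    Calc τ a G → (∀ ε v, G ε v → Even v.length) → (∀ ε v, G ε v → (v.map l).prod = 1) →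
    (∀ A ∈ S, ∀ i0 j0, mvR τ G i0 j0 A ∈ S) →
    BalC S E P →
    ∀ N ∈ S, N * N = 0 → Matrix.diagonal a * N = 0 →
    FewR l N (fun U => MinS S E U ∧ ¬ Isot P U) →
    ∀ (L : ℕ) (u : Ten I L), (∀ A ∈ S, aT A u = 0) →
      (∀ w, u w ≠ 0 → ∃ ε : ℤˣ, G ε (List.ofFn w) ∧ ∏ j, k (w j) = (((ε : ℤ) : ℝ) : ℂ)) →
      gT (Matrix.diagonal k) u = u

/-- THEOREM EMR in coordinates. -/
def ThmRStatement : Prop :=
  ∀ {I Λ : Type} [Fintype I] [DecidableEq I] [DecidableEq Λ] (D : Dat I Λ)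
    (At Bt : (L : ℕ) → Ten I L → Prop) (l : I → ℂ) (Γ : Set (Matrix I I ℂ))
    {β : Type} [Fintype β] (lb : β → ℕ) (b : Tup I lb) (N : Matrix I I ℂ),
    KSysC D At Bt l Γ lb b N → FData D Bt l → Full D At Γ → BalM D At Γ →
    FewR l N (fun U => MinStab D At Γ U ∧ ¬ Isot (Psi D) U) →
    ∀ (L : ℕ) (u : Ten I L), u ∈ Submodule.span ℝ {u | At L u} → u ≠ 0 →
      ∃ r : ℝ, 0 < r ∧ psiT D u u = (r : ℂ)

/-- Row WR: the assembly. -/
def WRStatement : Prop :=
  EB.W1zStatement → W2Statement → R11RCStatement → Ful1Statement → P2Statement → P3Statement →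
    G4Statement → G4bStatement → ThmRStatement

end Pool.Agent.Lib.MP_361a6f_ag.FL.E
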