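import Pool.Agent.Lib.MP_361a6f_ag.FL.EMC.NSNC
import Pool.Agent.Lib.MP_361a6f_ag.FL.EMR.DefsR

/-!
# Theorem EMR for the data as they come from geometry
-/

open Filter Topology MeasureTheory

set_option autoImplicit false
set_option linter.unusedSectionVars false

namespace Pool.Agent.Lib.MP_361a6f_ag.FL.E

open Pool.Agent.Lib.MP_361a6f_ag.FL.E.QS Pool.Agent.Lib.MP_361a6f_ag.FL.E.BR

variable {I Λ : Type} [Fintype I] [DecidableEq I] [DecidableEq Λ]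

/-- `FewR` with a matrix `F` in the place of the diagonal matrix of the eigenvalues -/
def FewRF (F N : Matrix I I ℂ) (Q : Submodule ℂ (I → ℂ) → Prop) : Prop :=
  ∀ (L : ℕ) (U : Fin L → Submodule ℂ (I → ℂ)) (c : Fin L → ℂ), 6 ≤ L → Even L →
    (∀ i, Q (U i)) → iSupIndep U → (∃ i, ∀ j, j ≠ i → ∀ v ∈ U j, N.mulVec v = 0) →
    (∀ i, ∃ v ∈ U i, v ≠ 0 ∧ F.mulVec v = c i • v) → ∏ i, c i = 1 →
    (∀ i, Module.finrank ℂ (U i) < 32) ∧
      ∀ i j, i ≠ j → 8 ≤ Module.finrank ℂ (U i) → Module.finrank ℂ (U j) < 8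

/-- `FewRF` after transport by an invertible matrix -/
theorem NSC.fewR_map {D : Dat I Λ} {Y : Matrix I I ℂ} (a1 : Alg1) (hG : IsG D Y)
    {F N : Matrix I I ℂ} {l : I → ℂ} (hFY : F * Y = Y * Matrix.diagonal l)
    {Q Q' : Submodule ℂ (I → ℂ) → Prop} (h : FewRF F N Q)
    (hQ : ∀ U, Q' U → Q (U.map (Matrix.toLin' Y))) : FewR l (Y⁻¹ * N * Y) Q' := by
  obtain ⟨hY1, hY2, hY3⟩ := a1.G_inv D Y hG
  intro L U c hL hE hU hi hk hc hp
  let e : (I → ℂ) ≃ₗ[ℂ] (I → ℂ) := Matrix.toLin'OfInv hY3 hY2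
  have he : (e : (I → ℂ) →ₗ[ℂ] (I → ℂ)) = Matrix.toLin' Y := rfl
  have hfr : ∀ V : Submodule ℂ (I → ℂ),
      Module.finrank ℂ (V.map (Matrix.toLin' Y)) = Module.finrank ℂ V := by
    intro V
    rw [← he]
    exact LinearEquiv.finrank_map_eq e V
  have h1 := h L (fun i => (U i).map (Matrix.toLin' Y)) c hL hE (fun i => hQ _ (hU i)) (by
    have h2 := hi.map_orderIso (Submodule.orderIsoMapComap e)
    exact h2) (by
    obtain ⟨i, hi⟩ := hk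
    refine ⟨i, fun j hj => ?_⟩
    rintro _ ⟨v, hv, rfl⟩
    have h4 := congrArg (Matrix.mulVec Y) (hi j hj v hv)
    rw [Matrix.mulVec_mulVec, Matrix.mulVec_zero, ← Matrix.mul_assoc, ← Matrix.mul_assoc,
      hY2, Matrix.one_mul] at h4
    rw [Matrix.toLin'_apply, Matrix.mulVec_mulVec]
    exact h4) (fun i => by
    obtain ⟨v, hv, hv0, hvc⟩ := hc i
    refine ⟨Matrix.toLin' Y v, ⟨v, hv, rfl⟩, fun h0 => hv0 ?_, ?_⟩
    · exact toLin_inj a1 hG (h0.trans (map_zero _).symm)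
    · rw [Matrix.toLin'_apply, Matrix.mulVec_mulVec, hFY, ← Matrix.mulVec_mulVec, hvc,
        Matrix.mulVec_smul]) hp
  simp only [hfr] at h1
  exact h1

/-- **Theorem EMR for the data from geometry.** -/
theorem ofEMR (hY : YStatement) (a1 : Alg1) (a2 : Alg2) (hB : ThmRStatement) {D : Dat I Λ}
    {At Ct : (L : ℕ) → Ten I L → Prop} {F : Matrix I I ℂ} {Γ : Set (Matrix I I ℂ)}
    (S : NSys D At Ct F Γ)
    (hf : ∀ u ∈ Submodule.span ℝ {u : Ten I 4 | Ct 4 u}, ∃ r : ℝ, 0 ≤ r ∧ psiT D u u = (r : ℂ))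
    (hfull : Full D At Γ) (hbal : BalM D At Γ)
    (N : Matrix I I ℂ) (n2 : N * N = 0) (hNG : IsG D (1 + N))
    (hNfix : ∀ L u, At L u → gT (1 + N) u = u) (hNF : F * N = N)
    (hfew : FewRF F N (fun U => MinStab D At Γ U ∧ ¬ Isot (Psi D) U))
    (L : ℕ) (u : Ten I L) (hu : u ∈ Submodule.span ℝ {u | At L u}) (hu0 : u ≠ 0) :
    ∃ r : ℝ, 0 < r ∧ psiT D u u = (r : ℂ) := by
  obtain ⟨Y, l, β, _, lb, b, hG, hFY, C, F4⟩ := EB.exists_core4B hY a1 a2 S hf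
  obtain ⟨hY1, hY2, hY3⟩ := a1.G_inv D Y hG
  have hconj : ∀ A B : Matrix I I ℂ, Y⁻¹ * A * Y * (Y⁻¹ * B * Y) = Y⁻¹ * (A * B) * Y := by
    intro A B
    have : Y⁻¹ * A * Y * (Y⁻¹ * B * Y) = Y⁻¹ * (A * (Y * Y⁻¹) * B) * Y := by
      simp only [Matrix.mul_assoc]
    rw [this, hY2, Matrix.mul_one]
  have hn2 : Y⁻¹ * N * Y * (Y⁻¹ * N * Y) = 0 := by
    rw [hconj, n2, Matrix.mul_zero, Matrix.zero_mul]
  have h1N : 1 + Y⁻¹ * N * Y = Y⁻¹ * (1 + N) * Y := by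
    rw [Matrix.mul_add, Matrix.mul_one, Matrix.add_mul, hY3]
  have hBS : KSysC D (fun L u => At L (gT Y u)) (fun L u => Rsp.Bt Ct L (gT Y u)) l
      {x' | ∃ x ∈ Γ, x' = Y⁻¹ * x * Y} lb b (Y⁻¹ * N * Y) :=
    { toCSys := C.toCSys
      n2 := hn2
      nlie := by
        refine lie_of_G hn2 a1 ?_
        rw [h1N]
        exact a1.G_mul D _ _ (a1.G_mul D _ _ hY1 hNG) hG
      nfix := by
        intro L u hu
        refine kill_of_fix hn2 a1 ?_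
        rw [h1N]
        apply inj a1 hG
        rw [a1.gT_mul, a1.gT_mul, psi_outer_gT a1 hG]
        exact hNfix L _ hu
      nl := by
        have h3 : Matrix.diagonal l = Y⁻¹ * F * Y := by
          rw [Matrix.mul_assoc, hFY, ← Matrix.mul_assoc, hY3, Matrix.one_mul]
        rw [h3, hconj, hNF] }
  rw [← spanR a1 hG At L] at hu
  obtain ⟨u', hu', rfl⟩ := hu
  have h4 := hB D _ _ _ _ _ _ _ hBS F4 (fun x hx hfix => K6.full_tr a1 hG hfull hx hfix)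
    (NSC.balM_tr S.odd a1 hG hbal)
    (NSC.fewR_map a1 hG hFY hfew fun U hU => ⟨K6.minStab_tr S.odd a1 hG hU.1, fun h =>
      hU.2 (NSC.isot_back hG h)⟩) L u' hu'
    (fun h => hu0 (by rw [h, map_zero]))
  obtain ⟨r, hr, h5⟩ := h4
  refine ⟨r, hr, ?_⟩
  rw [← h5]
  exact a1.psiT_gT D Y u' u' hG

end Pool.Agent.Lib.MP_361a6f_ag.FL.E
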