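import Pool.Agent.Lib.MP_361a6f_ag.FL.EMC.StatEMC

/-!
# Theorem EMR: no relations between the eigenvalues of Frobenius on few big pieces
-/

open CategoryTheory AlgebraicGeometry MonoidalCategory CartesianMonoidalCategory

universe u v w w'

namespace Pool.Agent.Lib.MP_361a6f_ag.FL

open Pool.Agent.Lib.MP_361a6f_ag.H3 Pool.Agent.Lib.MP_361a6f_ag.SQ

section defs

variable {k : Type u} [Field k] {k' : Type v} [Field k'] {W : CohomologyData.{u, 0, w} k ℂ}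
  {W' : CohomologyData.{v, 0, w'} k' ℂ}

/-- There are no `m ≥ 3` and independent minimal stable subspaces `U_1, .., U_(2m)` of `H^1(X)` that
are not isotropic, all but at most one of which are fixed by `T`, with eigenvalues `a_i` of `F^*` on
`s(U_i)` such that `a_1 ⋯ a_(2m) = q^m`, such that one of them has dimension at least `32`, or two
of them have dimension at least `8`. -/
def EQ.FewR (D : EQ.Data W W')
    (T : ∀ P : Prd 1, W.coh (EQ.pw D.X P) → W.coh (EQ.pw D.X P)) : Prop :=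
  ∀ (m : ℕ) (U : Fin (2 * m) → Submodule ℂ (W.coh D.X)) (a : Fin (2 * m) → ℂ), 3 ≤ m →
    (∀ i, EQ.MinStab W D.X D.g (U i) ∧ ¬ EQ.Isot W D.X D.g D.ξ (U i)) → iSupIndep U →
    (∃ i, ∀ j, j ≠ i → ∀ x ∈ U j, EQ.sub1 (X := D.X) T x = 0) →
    (∀ i, ∃ x ∈ U i, x ≠ 0 ∧ W'.pb D.F (D.s (.leaf 0) x) = W'.scal (a i) (D.s (.leaf 0) x)) →
    ∏ i, a i = (D.q : ℂ) ^ m →
    (∀ i, Module.finrank ℂ (U i) < 32) ∧
      ∀ i j, i ≠ j → 8 ≤ Module.finrank ℂ (U i) → Module.finrank ℂ (U j) < 8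

/-- Every isotropic minimal stable subspace of `H^1(X)` has the property `EQ.Bal`, and there is an
operator `T` as in `EQ.Mono` (`T = 1` is allowed) with `EQ.FewR`. -/
structure EQ.CondR (D : EQ.Data W W') : Prop where
  bal : ∀ U, EQ.MinStab W D.X D.g U → EQ.Isot W D.X D.g D.ξ U → EQ.Bal W D.X D.g U
  few : ∃ T, EQ.Mono D T ∧ EQ.FewR D T

end defs

/-- **Theorem EMR.** As Theorem EMC, with the condition `EQ.CondR`. -/
def ThmR : Prop :=
  ∀ {k : Type u} [Field k] (W : CohomologyData.{u, 0, w} k ℂ) (𝒱 : VarietyClass k)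
    (_ : IsWeilCohomology W 𝒱) {k' : Type v} [Field k'] (W' : CohomologyData.{v, 0, w'} k' ℂ)
    (𝒱' : VarietyClass k') (_ : IsWeilCohomology W' 𝒱') (D : EQ.Data W W') (_ : EQ.Hyp 𝒱 𝒱' D)
    (_ : EQ.Moving W' D.X' D.g (D.s (.leaf 0) D.ξ)) (_ : EQ.CondR D)
    (P : Prd 1) (η : W.coh (EQ.pw D.X P)) (_ : IsPol W (fun _ => D.ξ) P η),
    EQ.Q1 W (EQ.pw D.X P) (P.dim fun _ => D.g) η ∧ EQ.NumHom W (EQ.pw D.X P)

end Pool.Agent.Lib.MP_361a6f_ag.FL
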