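import Pool.Agent.Lib.MP_361a6f_ag.FL.EMC.GeoC
import Pool.Agent.Lib.MP_361a6f_ag.FL.EMR.NSNR
import Pool.Agent.Lib.MP_361a6f_ag.FL.EMR.StatR

/-!
# Theorem EMR from Theorem EMR in coordinates
-/

open CategoryTheory AlgebraicGeometry MonoidalCategory CartesianMonoidalCategory

universe u v w w'

set_option autoImplicit false

namespace Pool.Agent.Lib.MP_361a6f_ag.FL.E

open Pool.Agent.Lib.MP_361a6f_ag.H3 Pool.Agent.Lib.MP_361a6f_ag.SQ
  Pool.Agent.Lib.MP_361a6f_ag.PP Pool.Agent.Lib.MP_361a6f_ag.FL.PT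

namespace GeoC

open Pool.Agent.Lib.MP_361a6f_ag.FL.E.Orb Pool.Agent.Lib.MP_361a6f_ag.FL.E.BR

section hyp

variable {k : Type u} [Field k] {k' : Type v} [Field k'] {W : CohomologyData.{u, 0, w} k ℂ}
  {𝒱 : VarietyClass k} {W' : CohomologyData.{v, 0, w'} k' ℂ} {𝒱' : VarietyClass k'}
  (hW : IsWeilCohomology W 𝒱) (hW' : IsWeilCohomology W' 𝒱') {D : EQ.Data W W'}
  (h : EQ.Hyp 𝒱 𝒱' D) (c : Hst.Core W D.X D.g D.ξ)

include hW' in
/-- positivity -/
theorem pos1_R (thmR : ThmRStatement)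
    (four : ∀ u : Ten (Sub c.D (0, 1)) 4,
      u ∈ Submodule.span ℝ {u | At1 (hstY hW hW' h c) 4 u} →
        ∃ r : ℝ, 0 ≤ r ∧ psiT (subD c.D (0, 1)) u u = (r : ℂ)) (few : EQ.CondR D) :
    EndE.Pos1 (hst hW h c) := by
  have hΓ := Ful.isMats_symSet hW h c
  have grp := grp1 hW h c hΓ
  have gfix := gfix1 hW h c hΓ
  have hbal := balM_of hW h c few.bal
  have S := nsys_hyp hW hW' h c _ grp gfix (ndC _ _ _ (sys1 hW h c) (odd1 hW h c)
    (fun i j => i.2.trans j.2.symm) grp gfix hbal)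
  -- the monodromy
  obtain ⟨T, ⟨hT, hT2, hTF⟩, hTU⟩ := few.few
  obtain ⟨M, hMΓ, hTM⟩ := hΓ.sym T hT
  have hbM := hΓ.blk M hMΓ
  have hsub := sub1_cl1 c hW h.mem h.div.1 hbM hTM
  have hinj : Function.Injective (cl1 c hW h.mem h.div.1) :=
    cls_inj (H := hst hW h c) (d := 1) (ge _)
  have hgr : ∀ v, cl1 c hW h.mem h.div.1 v ∈ W.gr D.X 1 := fun v =>
    cls_gr (H := hst hW h c) v
  have hN : (1 : Matrix (Sub c.D (0, 1)) (Sub c.D (0, 1)) ℂ) + (blk M - 1) = blk M := by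
    abel
  have n2 : (blk M - 1 : Matrix (Sub c.D (0, 1)) (Sub c.D (0, 1)) ℂ) * (blk M - 1) = 0 := by
    refine Matrix.mulVec_injective (funext fun v => ?_)
    have h2 := hT2 _ (hgr v)
    rw [hsub, hsub] at h2
    rw [← Matrix.mulVec_mulVec, Matrix.zero_mulVec]
    exact hinj (h2.trans (map_zero _).symm)
  have hNF : ∀ F' : Matrix (Sub c.D (0, 1)) (Sub c.D (0, 1)) ℂ,
      F' = FM (hst hW h c) (spcOf h.spec D.ξ) hW' h.mem' D.F D.q →
      F' * (blk M - 1) = blk M - 1 := by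
    intro F' hF'
    refine Matrix.mulVec_injective (funext fun v => ?_)
    have h2 := hTF _ (hgr v)
    rw [hsub] at h2
    have h3 := pull_vec1 hW hW' h c ((blk M - 1).mulVec v)
    have h4 : sq D.q • D.s (.leaf 0) (cl1 c hW h.mem h.div.1
        ((FM (hst hW h c) (spcOf h.spec D.ξ) hW' h.mem' D.F D.q).mulVec
          ((blk M - 1).mulVec v))) =
        sq D.q • D.s (.leaf 0) (cl1 c hW h.mem h.div.1 ((blk M - 1).mulVec v)) :=
      h3.symm.trans h2
    have h5 := smul_right_injective _ (sq_ne h.pos) h4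
    have h6 := hinj (h.spec.bij.1 h5)
    rw [← Matrix.mulVec_mulVec, hF']
    exact h6
  have h6 : ∀ F' : Matrix (Sub c.D (0, 1)) (Sub c.D (0, 1)) ℂ,
      F' = FM (hst hW h c) (spcOf h.spec D.ξ) hW' h.mem' D.F D.q →
      FewRF F' (blk M - 1 : Matrix (Sub c.D (0, 1)) (Sub c.D (0, 1)) ℂ)
        (fun U => MinStab (subD c.D (0, 1)) (At1 (hst hW h c)) (E.blk '' Ful.symSet hW h c) U ∧
          ¬ Isot (Psi (subD c.D (0, 1))) U) := by
    intro F' hF' L U a hL hE hU hi hk ha hp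
    obtain ⟨m, rfl⟩ := even_iff_two_dvd.1 hE
    have h7 := hTU m (fun i => (U i).map (GeoM.cl hW h c)) (fun i => sq D.q * a i) (by omega)
      (fun i => ⟨GeoM.minStab_of hW h c (hU i).1, fun h0 => (hU i).2
        ((isot_iff c hW h.mem h.div.1 h.div (pos_of hW h c (hU i).1) (U i)).1 h0)⟩)
      (indep_map (GeoM.cl_inj hW h c) hi) (by
        obtain ⟨i, hk⟩ := hk
        refine ⟨i, fun j hj => ?_⟩
        rintro _ ⟨v, hv, rfl⟩
        exact (hsub v).trans (by rw [hk j hj v hv, map_zero]))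
      (fun i => by
        obtain ⟨v, hv, hv0, hva⟩ := ha i
        refine ⟨cl1 c hW h.mem h.div.1 v, ⟨v, hv, rfl⟩, fun h0 => hv0 ?_, ?_⟩
        · exact hinj (h0.trans (map_zero _).symm)
        · have h3 := pull_vec1 hW hW' h c v
          have h4 : (FM (hst hW h c) (spcOf h.spec D.ξ) hW' h.mem' D.F D.q).mulVec v =
              a i • v := by rw [← hF']; exact hva
          have h5 : D.s (.leaf 0) (cl1 c hW h.mem h.div.1 (a i • v)) =
              a i • D.s (.leaf 0) (cl1 c hW h.mem h.div.1 v) := by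
            rw [map_smul]
            exact h.spec.tensor.scal _ _ _
          rw [h4, h5, smul_smul] at h3
          exact h3)
      (by
        rw [Finset.prod_mul_distrib, hp, mul_one, Finset.prod_const, Finset.card_univ,
          Fintype.card_fin, pow_mul, sq_sq, Rat.cast_natCast])
    have h2 : ∀ V : Submodule ℂ (Sub c.D (0, 1) → ℂ),
        Module.finrank ℂ (V.map (GeoM.cl hW h c)) = Module.finrank ℂ V := fun V =>
      (LinearEquiv.finrank_eq
        (Submodule.equivMapOfInjective (GeoM.cl hW h c) (GeoM.cl_inj hW h c) V)).symm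
    simp only [h2] at h7
    exact h7
  exact EndE.pos1_of _ fun L u hu h0 =>
    ofEMR mainY alg1 alg2 thmR S four (Ful.full_symSet hW h c) hbal
      (blk M - 1) n2 (by rw [hN]; exact grp _ ⟨M, hMΓ, rfl⟩)
      (by rw [hN]; exact gfix _ ⟨M, hMΓ, rfl⟩) (hNF _ rfl) (h6 _ rfl) L u (Submodule.subset_span hu) h0

end hyp

end GeoC

/-- **Theorem EMR** from Theorem EMR in coordinates. -/
theorem thmR_of (thmR : ThmRStatement) : ThmR.{u, v, w, w'} := by
  intro k _ W 𝒱 hW k' _ W' 𝒱' hW' D h hM few P η hη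
  obtain ⟨c⟩ := Hst.exists_core_hyp hW h
  exact of_pos1 hW h c (GeoC.pos1_R hW hW' h c thmR (four_hyp hW hW' h hM c) few) P η hη

end Pool.Agent.Lib.MP_361a6f_ag.FL.E
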