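import Pool.Agent.Lib.MP_361a6f_ag.FL.EMC.R11NC
import Pool.Agent.Lib.MP_361a6f_ag.FL.EMR.DefsR
import Pool.Agent.Lib.MP_361a6f_ag.FL.EMR.ZLemR

/-!
# Theorem EMR, row R11RC: the hook

As `FL/EMC/R11NC.lean`. The letters of the reduced word are not moved, and the product of the
eigenvalues of Frobenius at its letters is `1`.
-/

set_option autoImplicit false
set_option linter.unusedSectionVars false

open Matrix Module

namespace Pool.Agent.Lib.MP_361a6f_ag.FL.E.Rc

open LemR P5e K1 R4 Mn Zc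

/-- `FewR` for pieces in different classes -/
theorem not_fewR {I : Type} [Fintype I] [DecidableEq I] {l : I → ℂ} {N : Matrix I I ℂ}
    {Q : Submodule ℂ (I → ℂ) → Prop} (hQ : FewR l N Q) {B : Matrix I I ℂ} (hU2 : B * Bᴴ = 1)
    {A : Type} (q : I → A) {L : ℕ} (hL : 6 ≤ L) (hev : Even L)
    (M : Fin L → Submodule ℂ (I → ℂ)) (hM : ∀ j, Q (M j)) (cl : Fin L → A)
    (hMq : ∀ j, M j ≤ H5.co B {i | q i = cl j}) (hcl : Function.Injective cl) (c : A)
    (hk : ∀ j, cl j ≠ c → ∀ v ∈ M j, N.mulVec v = 0) (ev : Fin L → ℂ)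
    (hl : ∀ j, ∃ v ∈ M j, v ≠ 0 ∧ (diagonal l).mulVec v = ev j • v) (hp : ∏ j, ev j = 1) :
    ¬ ((∃ a b, a ≠ b ∧ 8 ≤ finrank ℂ (M a) ∧ 8 ≤ finrank ℂ (M b)) ∨
      ∃ a, 32 ≤ finrank ℂ (M a)) := by
  have h2 : iSupIndep M :=
    ((H5.co_indep hU2 q).comp (f := cl) hcl).mono hMq
  have h4 : ∃ i, ∀ j, j ≠ i → ∀ v ∈ M j, N.mulVec v = 0 := by
    by_cases h5 : ∃ i, cl i = c
    · obtain ⟨i, hi⟩ := h5
      exact ⟨i, fun j hj => hk _ fun h6 => hj (hcl (h6.trans hi.symm))⟩
    · push Not at h5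
      exact ⟨⟨0, by omega⟩, fun j _ => hk _ (h5 j)⟩
  obtain ⟨h5, h6⟩ := hQ L M ev hL hev hM h2 h4 hl hp
  rintro (⟨a, b, hab, h7, h8⟩ | ⟨a, h7⟩)
  · exact absurd h8 (not_le.2 (h6 a b hab h7))
  · exact absurd h7 (not_le.2 (h5 a))

/-- **Row R11RC.** -/
theorem r11RC : R11RCStatement := by
  intro I _ _ S E P hlie hstar hE hEP hP hu hskew a hreal ha k hak lf hlf τ G hττ hτ C heven hrel
    hmv hbal
    N hN hNN haN hfew L u hku hu0
  classical
  have a1 : Alg1 := alg1
  obtain ⟨U, κ, r, F, har, hmr⟩ := exists_frame5 S E hlie hstar hE a hreal ha (fun _ => 1)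
    (fun _ => one_ne_zero) (fun _ _ _ => rfl)
    (fun e _ => by rw [Matrix.diagonal_one, Matrix.mul_one, Matrix.one_mul])
    (fun A hA => by
      rw [inv_one, Matrix.diagonal_one, Matrix.one_mul, Matrix.mul_one]
      exact hA)
  have hκ1 : ∀ i, κ i = 1 := by
    intro i
    obtain ⟨j, hj⟩ := F.val i
    exact hj
  have hS := F.sit
  have hU1 := F.u1
  have hU2 := F.u2
  have hQlie : ∀ X ∈ conjS U S, Xᵀ * (Uᵀ * P * U) + Uᵀ * P * U * X = 0 := Pc.inv_conj hU1 hP
  have hUUH : ∀ {L : ℕ} (u : Ten I L), gT U (gT Uᴴ u) = u := by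
    intro L u
    rw [← a1.gT_mul, hU2, a1.gT_one]
  have hnull : ∀ {L : ℕ} (u : Ten I L), (∀ A ∈ S, aT A u = 0) → ∀ w, gT Uᴴ u w ≠ 0 →
      ∀ T, diagonal T ∈ conjS U S → ((Finset.univ.val.map w).map T).sum = 0 := by
    intro L u hku w hw T hT
    have h4 := congrFun (F.kill L u hku _ hT) w
    rw [P5e.aT_diag, Pi.zero_apply] at h4
    have h5 := (mul_eq_zero.1 h4).resolve_right hw
    rw [Multiset.map_map]
    exact h5
  -- the words in the new coordinates
  have hword : ∀ {L : ℕ} (u : Ten I L),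
      (∀ w, u w ≠ 0 → ∃ ε : ℤˣ, G ε (List.ofFn w) ∧ ∏ j, k (w j) = (((ε : ℤ) : ℝ) : ℂ)) →
      ∀ w, gT Uᴴ u w ≠ 0 → ∃ ε : ℤˣ, Gn G r ε (Finset.univ.val.map w) ∧
        ∏ j, k (r (w j)) = (((ε : ℤ) : ℝ) : ℂ) := by
    intro L u hu w hw
    obtain ⟨w0, h2, h3⟩ : ∃ w0, u w0 ≠ 0 ∧ ∀ j, Uᴴ (w j) (w0 j) ≠ 0 := by
      by_contra hc
      push Not at hc
      apply hw
      show ∑ w' : Fin L → I, (∏ i, Uᴴ (w i) (w' i)) * u w' = 0
      refine Finset.sum_eq_zero fun w' _ => ?_
      by_cases h0 : u w' = 0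
      · rw [h0, mul_zero]
      · obtain ⟨j, hj⟩ := hc w' h0
        rw [Finset.prod_eq_zero (Finset.mem_univ j) hj, zero_mul]
    have h4 : ∀ j, a (w0 j) = a (r (w j)) := by
      intro j
      refine har _ _ fun h0 => h3 j ?_
      rw [Matrix.conjTranspose_apply, h0, star_zero]
    obtain ⟨ε, h5, h6⟩ := hu w0 h2
    refine ⟨ε, ⟨List.ofFn w, ?_, ?_⟩, ?_⟩
    · rw [Fin.univ_val_map]
    · refine C.blk ε _ _ ?_ h5
      rw [List.map_ofFn, List.map_map, List.map_ofFn]
      congr 1
      funext j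
      exact h4 j
    · rw [← h6]
      exact Finset.prod_congr rfl fun j _ => hak _ _ (h4 j).symm
  -- the torus `zen`
  let a' : I → ℂ := fun j => a (r j)
  let h := conjS U S
  have hmr' : diagonal a' ∈ h := hmr
  have hz : BR.ZSit h κ a' := Zn.zsit hS hκ1 hmr' fun i => hreal _
  have hza : BR.ShZ.Zt h a' a' := BR.B5.zen_self hmr'
  -- the classes modulo the roots and the span of the roots that vanish on `a'`
  let QA := E11.ZL.QA (E11.Rt h κ) (Zn.RtL h κ a')
  let sd : Setoid I :=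
    { r := fun i j => E11.wt h i - E11.wt h j ∈ QA
      iseqv :=
        { refl := fun i => by rw [sub_self]; exact QA.zero_mem
          symm := by
            intro i j hij
            have e : E11.wt h j - E11.wt h i = -(E11.wt h i - E11.wt h j) := by abel
            rw [e]
            exact QA.neg_mem hij
          trans := by
            intro i j l hij hjl
            have e : E11.wt h i - E11.wt h l =
                (E11.wt h i - E11.wt h j) + (E11.wt h j - E11.wt h l) := by abel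
            rw [e]
            exact QA.add_mem hij hjl } }
  let Bz : Type := Quotient sd
  let qz : I → Bz := Quotient.mk sd
  have hqz : ∀ i j, qz i = qz j ↔ E11.wt h i - E11.wt h j ∈ QA := fun i j => Quotient.eq
  have : Fintype Bz := Fintype.ofFinite Bz
  have hqzc : ∀ i j, Conn h κ i j → qz i = qz j := fun i j hij =>
    (hqz i j).2 (E11.ZL.q_le ((E11.sub_mem_iff hS F.eqv i j).2 hij))
  have hqzS : ∀ A ∈ h, ∀ i j, A i j ≠ 0 → qz i = qz j := fun A hA i j hij =>
    hqzc i j (Conn.step hS hA hij (Conn.refl j))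
  have hC := Pc.clSit hS F.eqv
  -- the projector to the self-dual letters
  let δ : I → ℂ := fun i => if Pc.SD h κ i then 1 else 0
  have hδ : ∀ i, star (δ i) = δ i ∧ δ i * δ i = δ i := by
    intro i
    by_cases hi : Pc.SD h κ i
    · simp only [δ, if_pos hi, star_one, mul_one, and_self]
    · simp only [δ, if_neg hi, star_zero, mul_zero, and_self]
  -- the entries of `N`
  have hAH : (diagonal a)ᴴ = diagonal a := by
    rw [diagonal_conjTranspose]
    congr 1
    funext i
    exact hreal i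
  have emul : ∀ A B, U * (A * B) * Uᴴ = (U * A * Uᴴ) * (U * B * Uᴴ) := by
    intro A B
    calc U * (A * B) * Uᴴ = U * A * 1 * B * Uᴴ := by rw [Matrix.mul_one]; noncomm_ring
      _ = (U * A * Uᴴ) * (U * B * Uᴴ) := by rw [← hU1]; noncomm_ring
  have eback : ∀ A : Matrix I I ℂ, U * (Uᴴ * A * U) * Uᴴ = A := by
    intro A
    calc U * (Uᴴ * A * U) * Uᴴ = (U * Uᴴ) * A * (U * Uᴴ) := by noncomm_ring
      _ = A := by rw [hU2, Matrix.one_mul, Matrix.mul_one]
  have efor : ∀ X : Matrix I I ℂ, Uᴴ * (U * X * Uᴴ) * U = X := by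
    intro X
    calc Uᴴ * (U * X * Uᴴ) * U = (Uᴴ * U) * X * (Uᴴ * U) := by noncomm_ring
      _ = X := by rw [hU1, Matrix.one_mul, Matrix.mul_one]
  have einj : ∀ X Y : Matrix I I ℂ, U * X * Uᴴ = U * Y * Uᴴ → X = Y := by
    intro X Y h
    rw [← efor X, h, efor]
  have ea : U * diagonal a' * Uᴴ = diagonal a := by
    have h2 : diagonal a * U = U * diagonal a' := by
      ext i j
      rw [Matrix.diagonal_mul, Matrix.mul_diagonal]
      by_cases h0 : U i j = 0
      · simp [h0]
      · rw [har i j h0, mul_comm]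
    rw [← h2, Matrix.mul_assoc, hU2, Matrix.mul_one]
  have hzen : ∀ X, X ∈ BR.zen h (diagonal a') → U * X * Uᴴ ∈ BR.zen S (diagonal a) := by
    intro X hX
    refine ⟨mem_conjS.1 hX.1, ?_, fun A hA hAA => ?_⟩
    · rw [← ea, ← emul, ← emul, hX.2.1]
    · obtain ⟨A', hA', hAm⟩ : ∃ A' ∈ h, U * A' * Uᴴ = A := ⟨_, F.mem A hA, eback A⟩
      have h2 : A' * diagonal a' = diagonal a' * A' := by
        apply einj
        rw [emul, emul, hAm, ea, hAA]
      have h3 := congrArg (fun Y => U * Y * Uᴴ) (hX.2.2 A' hA' h2)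
      simp only [emul, hAm] at h3
      exact h3
  have hpp : (U * diagonal δ * Uᴴ) * (U * diagonal δ * Uᴴ) = U * diagonal δ * Uᴴ := by
    rw [← emul, diagonal_mul_diagonal]
    congr 3
    funext i
    exact (hδ i).2
  have hpH : (U * diagonal δ * Uᴴ)ᴴ = U * diagonal δ * Uᴴ := by
    have h2 : (diagonal δ)ᴴ = diagonal δ := by
      rw [diagonal_conjTranspose]
      congr 1
      funext i
      exact (hδ i).1
    rw [conjTranspose_mul, conjTranspose_mul, conjTranspose_conjTranspose, h2, ← Matrix.mul_assoc]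
  have hδc : ∀ X ∈ h, diagonal δ * X = X * diagonal δ := by
    intro X hX
    ext i j
    rw [Matrix.diagonal_mul, Matrix.mul_diagonal]
    by_cases h0 : X i j = 0
    · rw [h0, mul_zero, zero_mul]
    · have h2 : Conn h κ i j := Conn.step hS hX h0 (Conn.refl j)
      have h3 : δ i = δ j := by
        by_cases hi : Pc.SD h κ i
        · have hj : Pc.SD h κ j := Pc.SD.of_conn hS hi h2
          simp only [δ, if_pos hi, if_pos hj]
        · have hj : ¬ Pc.SD h κ j := fun hj => hi (Pc.SD.of_conn hS hj (conn_symm hS h2))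
          simp only [δ, if_neg hi, if_neg hj]
      rw [h3, mul_comm]
  have hpS : ∀ A ∈ S, (U * diagonal δ * Uᴴ) * A = A * (U * diagonal δ * Uᴴ) := by
    intro A hA
    rw [← eback A, ← emul, ← emul, hδc _ (F.mem A hA)]
  have hpiso : ∀ V : Submodule ℂ (I → ℂ), (∀ A ∈ S, ∀ v ∈ V, A *ᵥ v ∈ V) →
      (∀ e ∈ E, ∀ v ∈ V, e *ᵥ v ∈ V) → (∀ v ∈ V, ∀ w ∈ V, v ⬝ᵥ (P *ᵥ w) = 0) →
      ∀ v ∈ V, (U * diagonal δ * Uᴴ) *ᵥ v = 0 := by
    intro V h2 h3 h4 v hv
    have h5 : diagonal δ *ᵥ (Uᴴ *ᵥ v) = 0 := by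
      funext i
      rw [Matrix.mulVec_diagonal, Pi.zero_apply]
      by_cases hi : Pc.SD h κ i
      · rw [Pc.iso_coord F hbal ⟨h2, h3⟩ h4 hv hi, mul_zero]
      · simp only [δ, if_neg hi, zero_mul]
    rw [← Matrix.mulVec_mulVec, ← Matrix.mulVec_mulVec, h5, Matrix.mulVec_zero]
  have hzN := BR.IsoC.zero BR.r3 S E P ⟨hlie, hstar⟩ hE hP hu (diagonal a) ha hAH _ hpH hpp hpS
    hpiso N hN hNN haN
  have hNrow : ∀ b c, Pc.SD h κ c → (Uᴴ * N * U) b c ≠ 0 → ∀ T, BR.ShZ.Zt h a' T → T b = 0 := by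
    intro b c hc hbc T hT
    have h2 := hzN _ (hzen _ hT)
    have h3 : diagonal T * (Uᴴ * N * U) * diagonal δ = 0 := by
      apply einj
      rw [emul (diagonal T * (Uᴴ * N * U)), emul (diagonal T) (Uᴴ * N * U), eback N, h2,
        Matrix.mul_zero, Matrix.zero_mul]
    have h4 := congrFun (congrFun h3 b) c
    rw [Matrix.mul_diagonal, Matrix.diagonal_mul, Matrix.zero_apply] at h4
    simp only [δ, if_pos hc, mul_one] at h4
    exact (mul_eq_zero.1 h4).resolve_right hbc
  have hNcol : ∀ i j i' j', Pc.SD h κ j → Pc.SD h κ j' → (Uᴴ * N * U) i j ≠ 0 →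
      (Uᴴ * N * U) i' j' ≠ 0 → qz j = qz j' := by
    intro i j i' j' hj hj' h2 h3
    have h4 : ∀ x y, Pc.SD h κ y → (Uᴴ * N * U) x y ≠ 0 → E11.wt h x ∈ QA := by
      intro x y hy hxy
      refine (le_sup_right : (Submodule.span ℝ (Zn.RtL h κ a')).toAddSubgroup ≤ QA) ?_
      exact Zn.mem_span hS hmr' fun T hT => by
        rw [E11.ev_wt hS x hT.1]
        exact hNrow x y hy hxy T hT
    have h5 : qz i = qz i' := (hqz i i').2 (QA.sub_mem (h4 i j hj h2) (h4 i' j' hj' h3))
    have h6 := hqzS _ (F.mem N hN)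
    exact ((h6 i j h2).symm.trans h5).trans (h6 i' j' h3)
  -- `N` kills the classes without entries of `N`
  have hkill : ∀ J : Set I, (∀ i, ∀ j ∈ J, (Uᴴ * N * U) i j = 0) →
      ∀ v ∈ H5.co U J, N.mulVec v = 0 := by
    intro J hJ v hv
    have e : Uᴴ *ᵥ (N *ᵥ v) = 0 := by
      have e1 : Uᴴ *ᵥ (N *ᵥ v) = (Uᴴ * N * U) *ᵥ (Uᴴ *ᵥ v) := by
        rw [Matrix.mulVec_mulVec, Matrix.mulVec_mulVec]
        congr 1
        calc Uᴴ * N = Uᴴ * N * (U * Uᴴ) := by rw [hU2, Matrix.mul_one]
          _ = Uᴴ * N * U * Uᴴ := by simp only [Matrix.mul_assoc]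
      rw [e1]
      funext i
      rw [Matrix.mulVec, dotProduct, Pi.zero_apply]
      refine Finset.sum_eq_zero fun j _ => ?_
      by_cases hj : j ∈ J
      · rw [hJ i j hj, zero_mul]
      · rw [hv j hj, mul_zero]
    calc N *ᵥ v = (U * Uᴴ) *ᵥ (N *ᵥ v) := by rw [hU2, Matrix.one_mulVec]
      _ = 0 := by rw [← Matrix.mulVec_mulVec, e, Matrix.mulVec_zero]
  -- the reduction
  have heqv : EB.RedZ.Eqv a' (Q τ G r) := by
    refine ⟨fun i j k l h => q_symm C hττ r h, fun i j k l m n h h1 => q_trans C r h h1, ?_⟩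
    intro x y i j i' j' hi hj h
    refine C.blk 1 _ _ ?_ h
    have hi' : a (r i) = a (r i') := hi
    have hj' : a (r j) = a (r j') := hj
    simp only [List.map_cons, List.map_nil, hτ, hi', hj']
  have rules : ∀ e : ℤˣ, EB.RedZ.RulesZ h a' (Q τ G r) (Gn G r e) := fun e =>
    ⟨fun i j v hT h => gn_can C hτ r (hT a' hza) h,
      fun l m m' n v hQ h => gn_exch C r hQ h⟩
  have hcan : ∀ i j, E11.wt h i + E11.wt h j ∈ QA → ∃ s : Multiset (Tri I),
      (∀ p ∈ s, EB.RedZ.HomRZ h κ a' (Q τ G r) p.1 p.2.1 p.2.2) ∧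
      ∀ T, BR.ShZ.Zt h a' T → T i + T j = (s.map fun p => p.2.1 T).sum := by
    intro i j h2
    obtain ⟨s, h3, h4⟩ := Zn.exists_types hS hmr' h2
    obtain ⟨s', h5, h6⟩ := EB.R4z.refine_msZ C hττ hτ hmv har s h3
    refine ⟨s', h5, fun T hT => ?_⟩
    rw [h6 T, ← h4 T hT, E11.ev_add, E11.ev_wt hS i hT.1, E11.ev_wt hS j hT.1]
  choose M hM using fun l : {i | Pc.SD h κ i} => Pc.exists_pieceC F hbal hP hEP hskew hu l.2
  have hMc : ∀ l, ∀ x ∈ tr U (M l), ∀ i, x i ≠ 0 → Conn h κ l i := by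
    intro l x hx i hi
    by_contra hc
    have h2 := (hM l).2.2.2 ((mem_tr hU1 hU2).1 hx) i hc
    rw [Matrix.mulVec_mulVec, hU1, Matrix.one_mulVec] at h2
    exact hi h2
  have main : ∀ (e : ℤˣ) (v : Multiset I), Gn G r e v →
      (∀ T, diagonal T ∈ conjS U S → (v.map T).sum = 0) → e = 1 := by
    intro e v hv h0
    obtain ⟨v', h2, h0', hno⟩ := redC hz heqv (rules e)
      (fun i j => E11.wt h i + E11.wt h j ∈ QA) hcan _ v le_rfl hv fun T hT => h0 T hT.1
    -- all letters are self-dual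
    have hsd : ∀ l ∈ v', Pc.SD h κ l := by
      intro l hl
      by_contra hns
      obtain ⟨d, hdS, hd1, hd2, hd3, hd4⟩ := Pc.exists_d F hbal hP hu hns
      have hdz : BR.ShZ.Zt h a' d := by
        have hcm : ∀ A ∈ h, diagonal d * A = A * diagonal d := by
          intro A hA
          ext i j
          rw [Matrix.diagonal_mul, Matrix.mul_diagonal]
          by_cases h3 : A i j = 0
          · rw [h3, mul_zero, zero_mul]
          · rw [hd1 A hA i j h3, mul_comm]
        exact ⟨hdS, hcm _ hmr', fun A hA _ => hcm A hA⟩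
      obtain ⟨v1, rfl⟩ := Multiset.exists_cons_of_mem hl
      have h3 := h0' d hdz
      rw [Multiset.map_cons, Multiset.sum_cons, hd3] at h3
      have h4 : (v1.map fun i => (d i).re).sum < 0 := by
        have e1 : (v1.map fun i => (d i).re).sum = ((v1.map d).sum).re := (Red.re_sum v1 d).symm
        have e2 := congrArg Complex.re h3
        rw [Complex.add_re, Complex.one_re, Complex.zero_re] at e2
        rw [e1]
        linarith
      obtain ⟨m, hm, h5⟩ := Red.exists_neg v1 _ h4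
      obtain ⟨v2, rfl⟩ := Multiset.exists_cons_of_mem hm
      have h6 : d m = -1 := by
        rcases hd2 m with h7 | h7 | h7
        · rw [h7, Complex.zero_re] at h5
          exact absurd h5 (lt_irrefl _)
        · rw [h7, Complex.one_re] at h5
          exact absurd h5 (by norm_num)
        · exact h7
      obtain ⟨n, hn1, hn2⟩ := hd4 m h6
      refine hno l m v2 rfl ?_
      have h7 := E11.wt_neg_of hS hn2
      rw [h7, ← sub_eq_add_neg]
      exact E11.ZL.q_le ((E11.sub_mem_iff hS F.eqv l n).2 hn1)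
    -- and they are in different classes
    have h3 : (v'.map qz).Nodup := by
      rw [Multiset.nodup_iff_ne_cons_cons]
      intro b t hat
      obtain ⟨l1, hl1, hql1, h1⟩ := (Multiset.map_eq_cons _ _ _ _).2 hat
      obtain ⟨l2, hl2, hql2, h2'⟩ := (Multiset.map_eq_cons _ _ _ _).2 h1
      obtain ⟨v1, hv1⟩ := Multiset.exists_cons_of_mem hl1
      have e1 : v'.erase l1 = v1 := by rw [hv1, Multiset.erase_cons_head]
      rw [e1] at hl2
      obtain ⟨v2, hv2⟩ := Multiset.exists_cons_of_mem hl2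
      refine hno l1 l2 v2 (by rw [hv1, hv2]) ?_
      have e : E11.wt h l1 + E11.wt h l2 =
          (E11.wt h l1 - E11.wt h l2) + (E11.wt h l2 + E11.wt h l2) := by abel
      rw [e]
      refine QA.add_mem ((hqz l1 l2).1 (hql1.trans hql2.symm)) (E11.ZL.q_le (hC.two l2 ?_))
      exact hsd l2 (by rw [hv1, hv2]; simp)
    have hlt : Multiset.card v' < 6 := by
      by_contra hc
      push Not at hc
      obtain ⟨t, rfl⟩ : ∃ t : List I, (t : Multiset I) = v' := ⟨v'.toList, v'.coe_toList⟩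
      have hn : (t.map qz).Nodup := h3
      have hinj := List.nodup_iff_injective_get.1 hn
      let l0 : Fin t.length → {i | Pc.SD h κ i} := fun j =>
        ⟨t.get j, hsd _ (Multiset.mem_coe.2 (t.get_mem j))⟩
      have h4 : ∑ j : Fin t.length, E11.wt h (t.get j) ∈ QA := by
        refine (le_sup_right : (Submodule.span ℝ (Zn.RtL h κ a')).toAddSubgroup ≤ QA) ?_
        refine Zn.mem_span hS hmr' fun T hT => ?_
        have e1 : ∀ s : Finset (Fin t.length), E11.ev (∑ j ∈ s, E11.wt h (t.get j)) T =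
            ∑ j ∈ s, T (t.get j) := by
          intro s
          induction s using Finset.induction_on with
          | empty => rw [Finset.sum_empty, Finset.sum_empty, E11.ev_zero]
          | insert b s hb ih =>
            rw [Finset.sum_insert hb, Finset.sum_insert hb, E11.ev_add, ih,
              E11.ev_wt hS _ hT.1]
        rw [e1]
        have h5 := h0' T hT
        rw [Multiset.map_coe, Multiset.sum_coe] at h5
        rw [← h5]
        exact Fin.sum_univ_fun_getElem t T
      have h5 : ∀ x y : Fin t.length, x ≠ y →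
          E11.wt h (t.get x) - E11.wt h (t.get y) ∉ QA := by
        intro x y hxy hcon
        have h5 := (hqz _ _).2 hcon
        have h6 : (t.map qz).get ⟨x.1, by rw [List.length_map]; exact x.2⟩
            = (t.map qz).get ⟨y.1, by rw [List.length_map]; exact y.2⟩ := by
          simpa using h5
        have h7 := congrArg Fin.val (hinj h6)
        exact hxy (Fin.ext h7)
      have hPt : (Uᵀ * P * U).transpose = -(Uᵀ * P * U) := by
        rw [Matrix.transpose_mul, Matrix.transpose_mul, Matrix.transpose_transpose, hskew,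
          Matrix.neg_mul, Matrix.mul_neg, Matrix.mul_assoc]
      have h4' : ∑ j : Fin t.length, E11.wt h (l0 j) ∈
          E11.ZL.QA (E11.RC.Ph (E11.wt h) (E11.Rt h κ) {i | Pc.SD h κ i})
            (Zn.RtL h κ a' ∩ E11.RC.Ph (E11.wt h) (E11.Rt h κ) {i | Pc.SD h κ i}) :=
        hC.mem_qa Zn.RtL_le h4 (Submodule.sum_mem _ fun j _ => E11.RC.mem_sp (l0 j).2)
      have h7 := E11.lemmaZR E11.l2 hC.root
        (Pc.pieceC hS F.eqv hQlie hPt (fun l => tr U (M l)) (fun l => (hM l).2.1)
          (fun l => (hM l).2.2.1) hMc)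
        Set.inter_subset_right l0 hc h4' fun x y hxy hcon => h5 x y hxy (E11.RC.qa_le hcon)
      -- the eigenvalues of Frobenius
      obtain ⟨h8e, h8p⟩ : Even t.length ∧ ∏ x : Fin t.length, lf (r (t.get x)) = 1 := by
        obtain ⟨t', ht', h8⟩ := h2
        have h9 := heven e _ h8
        have h10 := hrel e _ h8
        rw [List.length_map] at h9
        have h11 : t'.length = t.length := by
          have := congrArg Multiset.card ht'
          rwa [Multiset.coe_card, Multiset.coe_card] at this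
        refine ⟨h11 ▸ h9, ?_⟩
        have h12 : ((t'.map r).map lf).prod = ((t.map r).map lf).prod := by
          have h13 : (((t' : Multiset I).map r).map lf).prod =
              (((t : Multiset I).map r).map lf).prod := by rw [ht']
          simpa only [Multiset.map_coe, Multiset.prod_coe] using h13
        rw [h12, List.map_map] at h10
        rw [← h10]
        exact (Fin.prod_univ_fun_getElem t (lf ∘ r))
      have hlU : diagonal lf * U = U * diagonal fun j => lf (r j) := by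
        ext i j
        rw [Matrix.diagonal_mul, Matrix.mul_diagonal]
        by_cases h0 : U i j = 0
        · simp [h0]
        · rw [hlf _ _ (har i j h0), mul_comm]
      have heig : ∀ x, ∃ v ∈ M (l0 x), v ≠ 0 ∧
          (diagonal lf).mulVec v = lf (r (t.get x)) • v := by
        intro x
        obtain ⟨y, hy, hy0, hyw⟩ := (hM (l0 x)).2.2.1
        refine ⟨U *ᵥ y, (mem_tr hU1 hU2).1 hy, fun h0 => hy0 ?_, ?_⟩
        · have h8 := congrArg (fun z => Uᴴ *ᵥ z) h0
          simpa only [Matrix.mulVec_mulVec, hU1, Matrix.one_mulVec, Matrix.mulVec_zero] using h8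
        · rw [Matrix.mulVec_mulVec, hlU, ← Matrix.mulVec_mulVec, ← Matrix.mulVec_smul]
          congr 1
          funext i
          rw [Matrix.mulVec_diagonal, Pi.smul_apply, smul_eq_mul]
          by_cases hi : y i = 0
          · rw [hi, mul_zero, mul_zero]
          · have h8 := (E11.wt_eq_iff hS i (t.get x)).1 (hyw i hi) a' hmr'
            rw [hlf _ _ h8]
      -- the class of the entries of `N`
      obtain ⟨c, hcN⟩ : ∃ c : Bz, ∀ i j, Pc.SD h κ j → (Uᴴ * N * U) i j ≠ 0 → qz j = c := by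
        by_cases hN0 : ∃ i j, Pc.SD h κ j ∧ (Uᴴ * N * U) i j ≠ 0
        · obtain ⟨i0, j0, h8, h9⟩ := hN0
          exact ⟨qz j0, fun i j hj hij => hNcol i j i0 j0 hj h8 hij h9⟩
        · push Not at hN0
          exact ⟨qz (t.get ⟨0, by have : t.length = Multiset.card (t : Multiset I) := rfl; omega⟩),
            fun i j hj hij => absurd (hN0 i j hj) hij⟩
      refine not_fewR hfew hU2 qz hc h8e (fun x => M (l0 x)) (fun x => (hM (l0 x)).1)
        (fun x => qz (t.get x)) (fun x v hv i hi => (hM (l0 x)).2.2.2 hv i fun hcn =>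
          hi (hqzc _ _ hcn).symm) ?_ c ?_ _ heig h8p ?_
      · intro x y hxy
        by_contra hne
        exact h5 x y hne ((hqz _ _).1 hxy)
      · intro x hx v hv
        refine hkill {y | Conn h κ (l0 x) y} (fun z y hy => ?_) v ((hM (l0 x)).2.2.2 hv)
        by_contra h8
        exact hx ((hqzc _ _ hy).trans (hcN z y (Pc.SD.of_conn hS (l0 x).2 hy) h8))
      · have h8 : ∀ l, finrank ℂ (tr U (M l)) ≤ finrank ℂ (M l) := fun l =>
          (finrank_tr hU2 (M l)).le
        rcases h7 with ⟨x, y, hxy, h9, h10⟩ | ⟨x, h9⟩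
        · exact Or.inl ⟨x, y, hxy, h9.trans (h8 _), h10.trans (h8 _)⟩
        · exact Or.inr ⟨x, h9.trans (h8 _)⟩
    refine gn_four C r ?_ h2
    obtain ⟨t, ht, h5⟩ := h2
    have h6 := heven e _ h5
    rw [List.length_map] at h6
    have h7 : Multiset.card v' = t.length := by rw [← ht, Multiset.coe_card]
    obtain ⟨m, hm⟩ := h6
    omega
  have hkU : diagonal k * U = U * diagonal fun j => k (r j) := by
    ext i j
    rw [Matrix.diagonal_mul, Matrix.mul_diagonal]
    by_cases h0 : U i j = 0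
    · simp [h0]
    · rw [hak _ _ (har i j h0), mul_comm]
  have hfix : gT (diagonal fun j => k (r j)) (gT Uᴴ u) = gT Uᴴ u := by
    funext w
    rw [P5e.gT_diag]
    by_cases h0 : gT Uᴴ u w = 0
    · rw [h0, mul_zero]
    · obtain ⟨ε, h6, h7⟩ := hword u hu0 w h0
      have h8 := main ε _ h6 (hnull u hku w h0)
      rw [h7, h8]
      simp
  calc gT (diagonal k) u = gT (diagonal k) (gT U (gT Uᴴ u)) := by rw [hUUH]
    _ = gT U (gT (diagonal fun j => k (r j)) (gT Uᴴ u)) := by
        rw [← a1.gT_mul, hkU, a1.gT_mul]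
    _ = u := by rw [hfix, hUUH]

end Pool.Agent.Lib.MP_361a6f_ag.FL.E.Rc
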