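import Pool.Agent.Lib.MP_361a6f_ag.FL.EMR.WR48
import Pool.Agent.Lib.MP_361a6f_ag.FL.EMR.R11RC
import Pool.Agent.Lib.MP_361a6f_ag.FL.EMR.GeoR
import Pool.Agent.Lib.MP_361a6f_ag.FL.EM.Ful1
import Pool.Agent.Lib.MP_361a6f_ag.FL.EB.W1z
import Pool.Agent.Lib.MP_361a6f_ag.FL.E5.W2
import Pool.Agent.Lib.MP_361a6f_ag.FL.E.P2
import Pool.Agent.Lib.MP_361a6f_ag.FL.E.P3
import Pool.Agent.Lib.MP_361a6f_ag.FL.E.G4
import Pool.Agent.Lib.MP_361a6f_ag.FL.E.G4b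

/-!
# Theorem EMR, without hypotheses
-/

universe u v w w'

namespace Pool.Agent.Lib.MP_361a6f_ag.FL

/-- Theorem EMR in coordinates. -/
theorem E.thmR : E.ThmRStatement :=
  E.wr E.EB.w1z E.w2 E.Rc.r11RC E.ful1 E.p2 E.p3 E.g4 E.g4b

/-- **Theorem EMR.** -/
theorem thmRel : ThmR.{u, v, w, w'} := E.thmR_of E.thmR

end Pool.Agent.Lib.MP_361a6f_ag.FL
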