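import Pool.Agent.Lib.MP_361a6f_ag.FL.EMC.WNC
import Pool.Agent.Lib.MP_361a6f_ag.FL.EMR.DefsR
import Pool.Agent.Lib.MP_361a6f_ag.FL.EMR.CalcR

/-!
# Theorem EMR: the assembly (row WR)

As row WNC. The product of the eigenvalues of Frobenius at the letters of a word of `s` is `1`, as
Frobenius fixes `s`.
-/

set_option autoImplicit false
set_option linter.unusedSectionVars false

open Filter Topology

namespace Pool.Agent.Lib.MP_361a6f_ag.FL.E

open BR

/-- Row WR. -/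
theorem wr : WRStatement := by
  intro w1 w2 r11 f1 p2 p3 g4 g4b I Λ _ _ _ D At Bt l Γ β _ lb b N hE hF hfull hbal hfew L u hu
    hu0
  obtain ⟨m0, hm0⟩ := f1 D At Bt l Γ lb b hE.toCSys hfull
  obtain ⟨ι, _, len, t, s, x, k, h, ⟨g, hg, hlim⟩, hNs, G, hC, hwd⟩ :=
    w1 D At Bt l Γ lb b hE.toCSys hF (max m0 (max L 2))
  have hm : 2 ≤ max m0 (max L 2) := (le_max_right L 2).trans (le_max_right m0 _)
  have hful := hm0 _ (le_max_left m0 (max L 2)) len t s x k h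
  have hL := h.lvl
  obtain ⟨a, ha, har, haS⟩ := p3 D s l hE.typ_eq hE.odd hE.tau hE.ratio hL.fix
  have com := g4b D At Bt l Γ lb b hE.toCSys _ hm len t s x k h
  obtain ⟨hxi, hx1, hx2⟩ := alg1.G_inv D x hL.grp
  have hCa : Calc D.τ a (fun ε v => (G ε v ∧ Even v.length) ∧ (v.map l).prod = 1) :=
    calc_rel (Weleven.calc_even (Wfx.calc_congr (fun i j => (ha i j).1) hC))
      (fun i j hij => (ha i j).1 hij) hE.tau
  have hwe : ∀ i w, s i w ≠ 0 → ∃ ε : ℤˣ, ((G ε (List.ofFn w) ∧ Even (List.ofFn w).length) ∧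
      ((List.ofFn w).map l).prod = 1) ∧ ∏ j, k (w j) = (((ε : ℤ) : ℝ) : ℂ) := by
    intro i w hw
    obtain ⟨ε, h1, h2⟩ := hwd i w hw
    have hrel : ((List.ofFn w).map l).prod = 1 := by
      have h3 : gT (Matrix.diagonal l) (s i) = s i := congrFun hL.fix i
      have h4 := congrFun h3 w
      rw [P5e.gT_diag] at h4
      rw [List.map_ofFn, List.prod_ofFn]
      exact mul_right_cancel₀ hw (by rw [one_mul]; exact h4)
    refine ⟨ε, ⟨⟨h1, ?_⟩, hrel⟩, h2⟩
    rw [List.length_ofFn]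
    by_contra hev
    apply hw
    have h1 : t i = 0 :=
      Six.odd_zero hE.odd (Nat.not_even_iff_odd.1 hev) (hE.sys.even _ _ (hL.mem i))
    have h2 : gT x (s i) = t i := congrFun hL.eq i
    have h3 : s i = gT x⁻¹ (t i) := by rw [← h2, ← alg1.gT_mul, hx2, alg1.gT_one]
    rw [h3, h1, Six.gT_zero]
    rfl
  -- stable subspaces
  have hst : ∀ U : Submodule ℂ (I → ℂ),
      StS (Six.stabS alg1 D s) {e | ∃ z, At 2 z ∧ e = opM D z} U → StabU D At Γ U :=
    fun U hU => R6c.stable_stabU hE.toCSys hm h hg hlim hU.1 fun z hz => hU.2 _ ⟨z, hz, rfl⟩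
  have hback : ∀ U : Submodule ℂ (I → ℂ), StabU D At Γ U →
      StS (Six.stabS alg1 D s) {e | ∃ z, At 2 z ∧ e = opM D z} U := by
    intro U hU
    refine ⟨fun A hA => ?_, ?_⟩
    · refine Wen.stable_of
        (𝓛 := {U | StS (Six.stabS alg1 D s) {e | ∃ z, At 2 z ∧ e = opM D z} U})
        (𝓣 := {U | StabU D At Γ U}) (fun U hU => hst U hU) hx1 hx2 (fun W hW => ⟨?_, ?_⟩)
        (fun U hU => hU.1 A hA) U hU
      · intro B hB v hv
        show Matrix.toLin' x _ ∈ W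
        rw [Matrix.toLin'_apply]
        exact hful W hW B hB v hv
      · rintro _ ⟨z, hz, rfl⟩ v hv
        show Matrix.toLin' x _ ∈ W
        rw [Matrix.toLin'_apply, Matrix.mulVec_mulVec, ← (com z hz).2.2, ← Matrix.mulVec_mulVec]
        exact hW.1 z hz _ hv
    · rintro _ ⟨z, hz, rfl⟩
      exact hU.1 z hz
  have hmin : ∀ U : Submodule ℂ (I → ℂ),
      MinS (Six.stabS alg1 D s) {e | ∃ z, At 2 z ∧ e = opM D z} U → MinStab D At Γ U := by
    rintro U ⟨h1, h0, h3⟩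
    exact ⟨h0, hst U h1, fun W hW hW0 hWs => h3 W hW (hback W hWs) hW0⟩
  have hNS : N ∈ stab D s := ⟨hE.nlie, hNs N (fun i j hij => by
    obtain ⟨h1, h2⟩ := B6.one_of hE.tau hE.nlie hE.nl hij
    rw [h1, h2]) hE.nfix⟩
  have hr := r11 (Six.stabS alg1 D s) {e | ∃ z, At 2 z ∧ e = opM D z} (Psi D)
    (fun A hA B hB => Six.stab_br alg1 hA hB) (p2 D s hL.min)
    (by
      rintro _ ⟨z, hz, rfl⟩ A hA
      exact (com z hz).1 A hA)
    (by
      rintro _ ⟨z, hz, rfl⟩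
      exact Wem.adj hE.sys hE.odd hz)
    (fun A hA => hA.1.2) Hsix.psi_unit (Weleven.psi_transpose hE.odd) a har haS k
    (fun i j hij => h.blk i j ((ha i j).1 hij)) l (fun i j hij => (ha i j).1 hij) D.τ
    (fun ε v => (G ε v ∧ Even v.length) ∧ (v.map l).prod = 1) D.τ_τ
    (Wfx.a_tau haS.1) hCa (fun ε v hv => hv.1.2) (fun ε v hv => hv.2)
    (w2 D s a (fun ε v => (G ε v ∧ Even v.length) ∧ (v.map l).prod = 1) hCa fun i w hw => by
      obtain ⟨ε, hε, -⟩ := hwe i w hw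
      exact ⟨ε, hε⟩)
    (by
      intro U hU hi
      obtain ⟨M, hM, hMG, hMu, hM3, hMU⟩ := hbal U (hmin U hU) hi
      have hcub := Mlog.cub_of hM3
      obtain ⟨hMA, hMx⟩ := Mlog.span_comm com hM
      refine ⟨Mlog.lg M, ⟨Mlog.lg_lie hcub hE.typ_eq hMG.2, ?_⟩,
        fun A hA => Mlog.lg_comm (hMA A hA), Mlog.lg_cube hcub,
        fun v => (hMU v).trans (Mlog.lg_two hcub v)⟩
      funext i
      refine Mlog.lg_kill hcub ?_
      have h2 : gT x (s i) = t i := congrFun hL.eq i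
      have h3 : s i = gT x⁻¹ (t i) := by rw [← h2, ← alg1.gT_mul, hx2, alg1.gT_one]
      have h4 : M * x⁻¹ = x⁻¹ * M := by
        calc M * x⁻¹ = x⁻¹ * x * (M * x⁻¹) := by rw [hx2, Matrix.one_mul]
          _ = x⁻¹ * (M * x) * x⁻¹ := by rw [hMx]; simp only [Matrix.mul_assoc]
          _ = x⁻¹ * M := by rw [Matrix.mul_assoc, Matrix.mul_assoc, hx1, Matrix.mul_one]
      rw [h3, ← alg1.gT_mul, h4, alg1.gT_mul, hMu _ _ (hL.mem i)])
    N hNS hE.n2 (B6.diag_mul hE.tau hE.nlie hE.nl ha haS.1)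
    (fun L' U c hL6 hev hU => hfew L' U c hL6 hev fun i => ⟨hmin _ (hU i).1, (hU i).2⟩)
  have hLm : L ≤ max m0 (max L 2) := (le_max_left L 2).trans (le_max_right m0 _)
  refine Six.pos_of alg1 hE.sys (hE.nd L) hL.grp
    (T := {v : Ten I L | ∃ i, ∃ h : len i = L, v = h ▸ t i}) ?_ (hL.span L hLm) ?_ u hu hu0
  · rintro _ ⟨i, rfl, rfl⟩
    exact hL.mem i
  · rintro _ ⟨i, rfl, rfl⟩
    have h1 : gT x (s i) = t i := congrFun hL.eq i
    have h0 : gT x⁻¹ (t i) = s i := by rw [← h1, ← alg1.gT_mul, hx2, alg1.gT_one]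
    have h3 : gT (Matrix.diagonal k) (s i) = s i :=
      hr (len i) (s i) (fun A hA => congrFun hA.2 i) (hwe i)
    have h2 : jT D (s i) = s i := (congrFun hL.key i).symm.trans h3
    change gT x (jT D (gT x⁻¹ (t i))) = t i
    rw [h0, h2, h1]

end Pool.Agent.Lib.MP_361a6f_ag.FL.E
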